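import Mathlib

/-! MP_27bb78_al: the minimal Boolean `(m,0)`-product need not be the smallest one; in fact, for
every infinite cardinal `m`, a countable family of four-element Boolean algebras has an
`(m,0)`-product above which the minimal product does not lie. -/

open Cardinal

namespace Pool.Agent.Results.MP_27bb78_al.NotSmallest

universe u v

/-- A Boolean `m`-algebra: all subsets of size at most `m` have joins and meets. -/
def IsMAlgebra (m : Cardinal.{u}) (B : Type u) [BooleanAlgebra B] : Prop :=
  ∀ S : Set B, #S ≤ m → (∃ x, IsLUB S x) ∧ ∃ x, IsGLB S x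

/-- An `m`-homomorphism: a Boolean homomorphism preserving all existing joins and meets
of at most `m` elements. -/
def IsMHom (m : Cardinal.{u}) {A B : Type u} [BooleanAlgebra A] [BooleanAlgebra B]
    (f : BoundedLatticeHom A B) : Prop :=
  ∀ S : Set A, #S ≤ m → ∀ x, (IsLUB S x → IsLUB (f '' S) (f x)) ∧
    (IsGLB S x → IsGLB (f '' S) (f x))

/-- `S` is an `m`-subalgebra. -/
def IsMSubalgebra (m : Cardinal.{u}) {B : Type u} [BooleanAlgebra B] (S : Set B) : Prop :=
  (∀ b ∈ S, bᶜ ∈ S) ∧ ∀ X : Set B, X ⊆ S → #X ≤ m → ∀ x, (IsLUB X x ∨ IsGLB X x) → x ∈ S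

/-- `(i, B)` is a Boolean `(m,0)`-product of the family `A`. -/
structure IsProduct (m : Cardinal.{u}) {T : Type v} (A : T → Type u)
    [∀ t, BooleanAlgebra (A t)] (B : Type u) [BooleanAlgebra B]
    (i : ∀ t, BoundedLatticeHom (A t) B) : Prop where
  alg : IsMAlgebra m B
  hom : ∀ t, IsMHom m (i t)
  inj : ∀ t, Function.Injective (i t)
  indep : ∀ (F : Finset T) (a : ∀ t, A t), (∀ t ∈ F, a t ≠ ⊥) → F.inf (fun t => i t (a t)) ≠ ⊥
  gen : ∀ S : Set B, IsMSubalgebra m S → (∀ t a, i t a ∈ S) → S = Set.univ

/-- Minimality: the finite meets `⋀ i_t(a_t)` are dense in `B`. -/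
def IsMinimalProduct {T : Type v} (A : T → Type u) [∀ t, BooleanAlgebra (A t)] (B : Type u)
    [BooleanAlgebra B] (i : ∀ t, BoundedLatticeHom (A t) B) : Prop :=
  ∀ b : B, b ≠ ⊥ → ∃ (F : Finset T) (a : ∀ t, A t),
    F.inf (fun t => i t (a t)) ≠ ⊥ ∧ F.inf (fun t => i t (a t)) ≤ b

section general

/-- A homomorphism from a finite Boolean algebra preserves all joins and meets. -/
theorem hom_of_finite (m : Cardinal.{u}) {A B : Type u} [BooleanAlgebra A] [BooleanAlgebra B]
    [Finite A] (f : BoundedLatticeHom A B) : IsMHom m f := by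
  classical
  intro S _ x
  have hS : S.Finite := Set.toFinite S
  constructor
  · intro hx
    have hxe : x = hS.toFinset.sup id := by
      apply hx.unique
      constructor
      · intro y hy
        exact Finset.le_sup (f := id) (hS.mem_toFinset.2 hy)
      · intro y hy
        apply Finset.sup_le
        intro z hz
        exact hy (hS.mem_toFinset.1 hz)
    constructor
    · rintro _ ⟨y, hy, rfl⟩
      exact OrderHomClass.mono f (hx.1 hy)
    · intro y hy
      rw [hxe, map_finset_sup]
      apply Finset.sup_le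
      intro z hz
      exact hy ⟨z, hS.mem_toFinset.1 hz, rfl⟩
  · intro hx
    have hxe : x = hS.toFinset.inf id := by
      apply hx.unique
      constructor
      · intro y hy
        exact Finset.inf_le (f := id) (hS.mem_toFinset.2 hy)
      · intro y hy
        apply Finset.le_inf
        intro z hz
        exact hy (hS.mem_toFinset.1 hz)
    constructor
    · rintro _ ⟨y, hy, rfl⟩
      exact OrderHomClass.mono f (hx.1 hy)
    · intro y hy
      rw [hxe, map_finset_inf]
      apply Finset.le_inf
      intro z hz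
      exact hy ⟨z, hS.mem_toFinset.1 hz, rfl⟩

end general

section big

open Classical in
/-- the coordinate map -/
noncomputable def coord (t : ℕ) (F : Finset ℕ) : Bool := decide (t ∈ F)

/-- the embedding of the four-element algebra in the algebra of all subsets of `Finset ℕ` -/
noncomputable def emb (t : ℕ) : BoundedLatticeHom (Set Bool) (Set (Finset ℕ)) where
  toFun U := coord t ⁻¹' U
  map_sup' _ _ := rfl
  map_inf' _ _ := rfl
  map_top' := rfl
  map_bot' := rfl

theorem emb_apply (t : ℕ) (U : Set Bool) : emb t U = coord t ⁻¹' U := rfl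

theorem exists_point (G : Finset ℕ) (a : ∀ _ : ℕ, Set Bool) (ha : ∀ t ∈ G, a t ≠ ∅) :
    ∃ F : Finset ℕ, ∀ t ∈ G, coord t F ∈ a t := by
  classical
  refine ⟨G.filter (fun t => true ∈ a t), fun t ht => ?_⟩
  by_cases h : true ∈ a t
  · have : coord t (G.filter (fun t => true ∈ a t)) = true := by
      simp [coord, ht, h]
    rw [this]; exact h
  · have : coord t (G.filter (fun t => true ∈ a t)) = false := by
      simp [coord, h]
    rw [this]
    obtain ⟨b, hb⟩ := Set.nonempty_iff_ne_empty.2 (ha t ht)
    cases b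
    · exact hb
    · exact absurd hb h

theorem mem_inf_emb (G : Finset ℕ) (a : ∀ _ : ℕ, Set Bool) (F : Finset ℕ) :
    F ∈ G.inf (fun t => emb t (a t)) ↔ ∀ t ∈ G, coord t F ∈ a t := by
  classical
  induction G using Finset.induction_on with
  | empty => simp
  | insert x s hx ih =>
    rw [Finset.inf_insert]
    change (F ∈ emb x (a x) ∧ F ∈ s.inf (fun t => emb t (a t))) ↔ _
    rw [ih]
    simp [emb_apply]

theorem big_product (m : Cardinal.{0}) (hm : ℵ₀ ≤ m) :
    IsProduct m (fun _ : ℕ => Set Bool) (Set (Finset ℕ)) emb where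
  alg S _ := ⟨⟨sSup S, isLUB_sSup S⟩, ⟨sInf S, isGLB_sInf S⟩⟩
  hom t := hom_of_finite m _
  inj t := by
    intro U V h
    have hs : Function.Surjective (coord t) := by
      intro b
      cases b
      · exact ⟨∅, by simp [coord]⟩
      · exact ⟨{t}, by simp [coord]⟩
    exact hs.preimage_injective h
  indep G a ha := by
    obtain ⟨F, hF⟩ := exists_point G a ha
    intro h
    have : F ∈ G.inf (fun t => emb t (a t)) := (mem_inf_emb G a F).2 hF
    rw [h] at this
    exact this
  gen S hS hgen := by
    have hsing : ∀ F : Finset ℕ, ({F} : Set (Finset ℕ)) ∈ S := by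
      intro F
      have hX : Set.range (fun t : ℕ => emb t {coord t F}) ⊆ S := by
        rintro _ ⟨t, rfl⟩
        exact hgen t _
      refine hS.2 _ hX ((Cardinal.mk_range_le.trans (by simp)).trans hm) _ (Or.inr ⟨?_, ?_⟩)
      · rintro _ ⟨t, rfl⟩ G hG
        rw [Set.mem_singleton_iff] at hG
        subst hG
        change coord t G ∈ ({coord t G} : Set Bool)
        rfl
      · intro Y hY G hG
        rw [Set.mem_singleton_iff]
        ext t
        have h1 : G ∈ emb t {coord t F} := hY ⟨t, rfl⟩ hG
        have h2 : coord t G = coord t F := h1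
        simpa [coord] using h2
    apply Set.eq_univ_of_forall
    intro Y
    have hX : (fun F => ({F} : Set (Finset ℕ))) '' Y ⊆ S := by
      rintro _ ⟨F, _, rfl⟩
      exact hsing F
    have hc : ((fun F => ({F} : Set (Finset ℕ))) '' Y).Countable := (Set.to_countable Y).image _
    refine hS.2 _ hX ((Cardinal.le_aleph0_iff_set_countable.2 hc).trans hm) _ (Or.inl ⟨?_, ?_⟩)
    · rintro _ ⟨F, hF, rfl⟩ G hG
      rw [Set.mem_singleton_iff] at hG
      subst hG
      exact hF
    · intro Z hZ F hF
      exact hZ ⟨F, hF, rfl⟩ rfl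

end big

section nohom

theorem no_hom (m : Cardinal.{0}) (hm : ℵ₀ ≤ m) (M : Type) [BooleanAlgebra M]
    (j : ∀ _ : ℕ, BoundedLatticeHom (Set Bool) M)
    (hj : IsProduct m (fun _ : ℕ => Set Bool) M j)
    (hmin : IsMinimalProduct (fun _ : ℕ => Set Bool) M j)
    (h : BoundedLatticeHom (Set (Finset ℕ)) M) (hh : IsMHom m h)
    (hc : ∀ t a, j t a = h (emb t a)) : False := by
  classical
  have hsing : ∀ F : Finset ℕ, h {F} = ⊥ := by
    intro F
    by_contra hne
    obtain ⟨G, a, hGa, hle⟩ := hmin _ hne
    obtain ⟨s, hs⟩ := Infinite.exists_notMem_finset G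
    have hle2 : h {F} ≤ j s {coord s F} := by
      rw [hc]
      apply OrderHomClass.mono h
      intro X hX
      rw [Set.mem_singleton_iff] at hX
      subst hX
      change coord s X ∈ ({coord s X} : Set Bool)
      rfl
    have hane : ∀ t ∈ G, a t ≠ ⊥ := by
      intro t ht hat
      apply hGa
      rw [eq_bot_iff]
      calc G.inf (fun t => j t (a t)) ≤ j t (a t) := Finset.inf_le ht
        _ = ⊥ := by rw [hat, map_bot]
    set a' : ℕ → Set Bool := fun t => if t = s then {!(coord s F)} else a t with ha'
    have hind := hj.indep (insert s G) a' (by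
      intro t ht
      by_cases hts : t = s
      · simp [ha', hts]
      · have : t ∈ G := by
          rcases Finset.mem_insert.1 ht with h1 | h1
          · exact absurd h1 hts
          · exact h1
        simp only [ha', if_neg hts]
        exact hane t this)
    apply hind
    rw [Finset.inf_insert, eq_bot_iff]
    have e1 : G.inf (fun t => j t (a' t)) = G.inf (fun t => j t (a t)) := by
      apply Finset.inf_congr rfl
      intro t ht
      have : t ≠ s := fun h => hs (h ▸ ht)
      simp only [ha', if_neg this]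
    rw [e1]
    have e2 : a' s = {!(coord s F)} := by simp [ha']
    rw [e2]
    calc j s {!(coord s F)} ⊓ G.inf (fun t => j t (a t))
        ≤ j s {!(coord s F)} ⊓ j s {coord s F} := inf_le_inf_left _ (hle.trans hle2)
      _ = j s ({!(coord s F)} ⊓ {coord s F}) := (map_inf _ _ _).symm
      _ = j s ⊥ := by
          congr 1
          ext b
          cases h : coord s F <;> simp
      _ = ⊥ := map_bot _
  have hlub : IsLUB (Set.range (fun F : Finset ℕ => ({F} : Set (Finset ℕ)))) ⊤ := by
    constructor
    · intro x _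
      exact le_top
    · intro Y hY F _
      exact hY ⟨F, rfl⟩ rfl
  have h1 := (hh (Set.range (fun F : Finset ℕ => ({F} : Set (Finset ℕ))))
    ((Cardinal.mk_range_le.trans (by simp)).trans hm) ⊤).1 hlub
  rw [map_top] at h1
  have h2 : (⊤ : M) ≤ ⊥ := by
    apply h1.2
    rintro _ ⟨_, ⟨F, rfl⟩, rfl⟩
    exact (hsing F).le
  have h3 := hj.indep ∅ (fun _ => ⊤) (by simp)
  simp only [Finset.inf_empty] at h3
  exact h3 (le_bot_iff.1 h2)

end nohom

section minimal

open TopologicalSpace

/-- clopen coordinate sets as open sets -/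
def cyl (t : ℕ) (U : Set Bool) : Opens (ℕ → Bool) :=
  ⟨{x | x t ∈ U}, (isOpen_discrete U).preimage (continuous_apply t)⟩

theorem cyl_compl (t : ℕ) (U : Set Bool) : (cyl t U)ᶜ = cyl t Uᶜ := by
  apply IsCompl.compl_eq
  constructor
  · rw [disjoint_iff]
    ext x
    simp [cyl]
  · rw [codisjoint_iff]
    ext x
    simp [cyl, em]

theorem cyl_regular (t : ℕ) (U : Set Bool) : Heyting.IsRegular (cyl t U) := by
  unfold Heyting.IsRegular
  rw [cyl_compl, cyl_compl, compl_compl]

/-- The algebra of regular open subsets of the Cantor space. -/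
abbrev RO : Type := Heyting.Regular (Opens (ℕ → Bool))

/-- the coordinate clopen set as a regular open set -/
def rcyl (t : ℕ) (U : Set Bool) : RO :=
  (⟨cyl t U, cyl_regular t U⟩ : {a : Opens (ℕ → Bool) // Heyting.IsRegular a})

/-- canonical embeddings in the regular open algebra -/
def remb (t : ℕ) : BoundedLatticeHom (Set Bool) RO where
  toFun U := rcyl t U
  map_sup' U V := by
    apply Heyting.Regular.coe_injective
    refine Eq.trans ?_ (Heyting.Regular.coe_sup (rcyl t U) (rcyl t V)).symm
    change cyl t (U ⊔ V) = (cyl t U ⊔ cyl t V)ᶜᶜ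
    have : cyl t U ⊔ cyl t V = cyl t (U ⊔ V) := by
      ext x
      simp [cyl]
    rw [this]
    exact (cyl_regular t _).symm
  map_inf' U V := by
    apply Heyting.Regular.coe_injective
    refine Eq.trans ?_ (Heyting.Regular.coe_inf (rcyl t U) (rcyl t V)).symm
    change cyl t (U ⊓ V) = cyl t U ⊓ cyl t V
    ext x
    simp [cyl]
  map_top' := by
    apply Heyting.Regular.coe_injective
    change cyl t ⊤ = ⊤
    ext x
    simp [cyl]
  map_bot' := by
    apply Heyting.Regular.coe_injective
    change cyl t ⊥ = ⊥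
    ext x
    simp [cyl]

theorem coe_remb (t : ℕ) (U : Set Bool) : ((remb t U : RO) : Opens (ℕ → Bool)) = cyl t U := rfl

theorem mem_coe_inf (G : Finset ℕ) (a : ℕ → Set Bool) (x : ℕ → Bool) :
    x ∈ ((G.inf (fun t => remb t (a t)) : RO) : Opens (ℕ → Bool)) ↔ ∀ t ∈ G, x t ∈ a t := by
  classical
  induction G using Finset.induction_on with
  | empty => simp
  | insert y s hy ih =>
    rw [Finset.inf_insert]
    change (x ∈ cyl y (a y) ∧ x ∈ ((s.inf (fun t => remb t (a t)) : RO) : Opens (ℕ → Bool))) ↔ _
    rw [ih]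
    simp [cyl]

theorem ro_lub (S : Set RO) : ∃ x, IsLUB S x := by
  refine ⟨Heyting.Regular.toRegular (sSup ((fun y : RO => (y : Opens (ℕ → Bool))) '' S)), ?_, ?_⟩
  · intro y hy
    rw [← Heyting.Regular.coe_le_coe, Heyting.Regular.coe_toRegular]
    exact (le_sSup (Set.mem_image_of_mem _ hy)).trans le_compl_compl
  · intro y hy
    rw [← Heyting.Regular.coe_le_coe, Heyting.Regular.coe_toRegular]
    have : sSup ((fun y : RO => (y : Opens (ℕ → Bool))) '' S) ≤ (y : Opens (ℕ → Bool)) := by
      apply sSup_le
      rintro _ ⟨z, hz, rfl⟩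
      exact hy hz
    calc _ ≤ ((y : Opens (ℕ → Bool)))ᶜᶜ := compl_le_compl (compl_le_compl this)
      _ = _ := y.prop

theorem ro_glb (S : Set RO) : ∃ x, IsGLB S x := by
  obtain ⟨x, hx⟩ := ro_lub (lowerBounds S)
  exact ⟨x, isLUB_lowerBounds.1 hx⟩

theorem ro_minimal : IsMinimalProduct (fun _ : ℕ => Set Bool) RO remb := by
  intro b hb
  have hne : ((b : Opens (ℕ → Bool)) : Set (ℕ → Bool)).Nonempty := by
    rw [Set.nonempty_iff_ne_empty]
    intro h
    apply hb
    apply Heyting.Regular.coe_injective
    rw [Heyting.Regular.coe_bot]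
    ext x
    rw [h]
    simp
  obtain ⟨x, hx⟩ := hne
  obtain ⟨v, ⟨y, n, rfl⟩, hxv, hvb⟩ :=
    (PiNat.isTopologicalBasis_cylinders (E := fun _ : ℕ => Bool)).exists_subset_of_mem_open hx
      (b : Opens (ℕ → Bool)).isOpen
  have hle : (Finset.range n).inf (fun t => remb t {x t}) ≤ b := by
    rw [← Heyting.Regular.coe_le_coe]
    intro z hz
    apply hvb
    have hz' := (mem_coe_inf (Finset.range n) (fun t => {x t}) z).1 hz
    rw [PiNat.mem_cylinder_iff] at hxv ⊢
    intro i hi
    rw [← hxv i hi]
    exact hz' i (Finset.mem_range.2 hi)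
  refine ⟨Finset.range n, fun t => {x t}, ?_, hle⟩
  intro h
  have : x ∈ (((Finset.range n).inf (fun t => remb t {x t}) : RO) : Opens (ℕ → Bool)) := by
    rw [mem_coe_inf]
    intro t _
    rfl
  rw [h] at this
  simp at this

theorem ro_product (m : Cardinal.{0}) (hm : ℵ₀ ≤ m) :
    IsProduct m (fun _ : ℕ => Set Bool) RO remb where
  alg S _ := ⟨ro_lub S, ro_glb S⟩
  hom t := hom_of_finite m _
  inj t := by
    intro U V h
    have h1 : cyl t U = cyl t V := by
      rw [← coe_remb, ← coe_remb, h]
    ext b
    have h2 : (fun _ => b : ℕ → Bool) ∈ cyl t U ↔ (fun _ => b : ℕ → Bool) ∈ cyl t V := by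
      rw [h1]
    simpa [cyl] using h2
  indep G a ha := by
    have hp : ∀ t ∈ G, ∃ b, b ∈ a t := fun t ht => Set.nonempty_iff_ne_empty.2 (ha t ht)
    classical
    intro h
    have : (fun t => if ht : t ∈ G then (hp t ht).choose else true : ℕ → Bool) ∈
        ((G.inf (fun t => remb t (a t)) : RO) : Opens (ℕ → Bool)) := by
      rw [mem_coe_inf]
      intro t ht
      simp only [dif_pos ht]
      exact (hp t ht).choose_spec
    rw [h] at this
    simp at this
  gen S hS hgen := by
    -- finite meets are in `S`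
    have hfin : ∀ (G : Finset ℕ) (a : ℕ → Set Bool), G.inf (fun t => remb t (a t)) ∈ S := by
      intro G a
      have hX : (fun t => remb t (a t)) '' (G : Set ℕ) ⊆ S := by
        rintro _ ⟨t, _, rfl⟩
        exact hgen t _
      have hc : ((fun t => remb t (a t)) '' (G : Set ℕ)).Countable :=
        (Set.to_countable _).image _
      refine hS.2 _ hX ((Cardinal.le_aleph0_iff_set_countable.2 hc).trans hm) _ (Or.inr ⟨?_, ?_⟩)
      · rintro _ ⟨t, ht, rfl⟩
        exact Finset.inf_le (f := fun t => remb t (a t)) ht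
      · intro y hy
        apply Finset.le_inf
        intro t ht
        exact hy ⟨t, ht, rfl⟩
    apply Set.eq_univ_of_forall
    intro b
    -- finite meets with singletons of a fixed size
    set X : Set RO := {c | c ≤ b ∧ ∃ (G : Finset ℕ) (F : Finset ℕ),
      c = G.inf (fun t => remb t {coord t F})} with hXdef
    have hXS : X ⊆ S := by
      rintro c ⟨_, G, F, rfl⟩
      exact hfin G _
    have hXc : X.Countable := by
      apply (Set.countable_range (fun p : Finset ℕ × Finset ℕ =>
        p.1.inf (fun t => remb t {coord t p.2}))).mono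
      rintro c ⟨_, G, F, rfl⟩
      exact ⟨(G, F), rfl⟩
    refine hS.2 _ hXS ((Cardinal.le_aleph0_iff_set_countable.2 hXc).trans hm) _
      (Or.inl ⟨fun c hc => hc.1, ?_⟩)
    intro y hy
    by_contra hby
    have hne : b ⊓ yᶜ ≠ ⊥ := by
      intro h
      exact hby (disjoint_compl_right_iff.1 (disjoint_iff.2 h))
    obtain ⟨G, a, hGa, hle⟩ := ro_minimal _ hne
    -- refine the `a t` to singletons
    have hane : ∀ t ∈ G, a t ≠ ∅ := by
      intro t ht hat
      apply hGa
      rw [eq_bot_iff]
      calc G.inf (fun t => remb t (a t)) ≤ remb t (a t) := Finset.inf_le ht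
        _ = ⊥ := by rw [hat]; exact map_bot _
    obtain ⟨F, hF⟩ := exists_point G a hane
    have hle2 : G.inf (fun t => remb t {coord t F}) ≤ G.inf (fun t => remb t (a t)) := by
      apply Finset.le_inf
      intro t ht
      refine (Finset.inf_le ht).trans (OrderHomClass.mono (remb t) ?_)
      intro z hz
      rw [Set.mem_singleton_iff] at hz
      rw [hz]
      exact hF t ht
    have hin : G.inf (fun t => remb t {coord t F}) ∈ X :=
      ⟨(hle2.trans hle).trans inf_le_left, G, F, rfl⟩
    have h1 := hy hin
    have h2 : G.inf (fun t => remb t {coord t F}) ≤ yᶜ := (hle2.trans hle).trans inf_le_right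
    have h3 : G.inf (fun t => remb t {coord t F}) = ⊥ := by
      rw [eq_bot_iff, ← inf_compl_self y]
      exact le_inf h1 h2
    have : (fun t => coord t F) ∈
        ((G.inf (fun t => remb t {coord t F}) : RO) : Opens (ℕ → Bool)) := by
      rw [mem_coe_inf]
      intro t _
      rfl
    rw [h3] at this
    simp at this

end minimal

/-- For every infinite cardinal `m`, the countable family of four-element Boolean algebras has
a minimal `(m,0)`-product and an `(m,0)`-product `(i, B)` such that for no minimal product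
`(j, M)` there is an `m`-homomorphism `h : B → M` with `j t = h ∘ i t` for all `t`. -/
theorem result (m : Cardinal.{0}) (hm : ℵ₀ ≤ m) :
    ∃ (A : ℕ → Type) (_ : ∀ t, BooleanAlgebra (A t)) (_ : ∀ t, Nontrivial (A t)),
      (∃ (M : Type) (_ : BooleanAlgebra M) (j : ∀ t, BoundedLatticeHom (A t) M),
        IsProduct m A M j ∧ IsMinimalProduct A M j) ∧
      ∃ (B : Type) (_ : BooleanAlgebra B) (i : ∀ t, BoundedLatticeHom (A t) B),
        IsProduct m A B i ∧
        ∀ (M : Type) (_ : BooleanAlgebra M) (j : ∀ t, BoundedLatticeHom (A t) M),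
          IsProduct m A M j → IsMinimalProduct A M j →
          ¬ ∃ h : BoundedLatticeHom B M, IsMHom m h ∧ ∀ t a, j t a = h (i t a) := by
  refine ⟨fun _ => Set Bool, fun _ => inferInstance, fun _ => inferInstance,
    ⟨RO, inferInstance, remb, ro_product m hm, ro_minimal⟩,
    Set (Finset ℕ), inferInstance, emb, big_product m hm, ?_⟩
  rintro M _ j hj hmin ⟨h, hh, hc⟩
  exact no_hom m hm M j hj hmin h hh hc

end Pool.Agent.Results.MP_27bb78_al.NotSmallest
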